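import Mathlib
import Pool.Agent.X104.Spiral

set_option autoImplicit false

namespace Pool.Agent.Results.MP_061dbe_an.NeverInDual

open Metric Set Filter Topology Complex Pool.Agent.Helper610.Bohr Pool.Agent.X104.Spiral

/-- The class `A` of normalized analytic functions on the unit disc. -/
def classA : Set (ℂ → ℂ) := {f | DifferentiableOn ℂ f (ball 0 1) ∧ f 0 = 0 ∧ deriv f 0 = 1}

/-- The class `S` of univalent members of `A`. -/
def classS : Set (ℂ → ℂ) := {f | f ∈ classA ∧ InjOn f (ball 0 1)}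

/-- The neighbourhood `Σ_δ(f)` (at `z = 0` both quotients are read as `0`, which is the value of
the analytic extension of `(g-f)/z`). -/
def sigmaNhd (δ : ℝ) (f : ℂ → ℂ) : Set (ℂ → ℂ) :=
  {g | g ∈ classA ∧ ∀ z ∈ ball (0 : ℂ) 1,
    ‖(deriv g z - deriv f z) - (g z - f z) / z‖ + ‖(deriv g z - deriv f z) + (g z - f z) / z‖
      < 2 * δ}

/-- The `n`-th Taylor coefficient at the origin. -/
noncomputable def tcoef (n : ℕ) (f : ℂ → ℂ) : ℂ := iteratedDeriv n f 0 / (n.factorial : ℂ)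

/-- The Hadamard product. -/
noncomputable def hadamard (f g : ℂ → ℂ) (z : ℂ) : ℂ := ∑' n : ℕ, tcoef n f * tcoef n g * z ^ n

/-- The dual of a family. -/
def dualFam (𝓕 : Set (ℂ → ℂ)) : Set (ℂ → ℂ) :=
  {f | f ∈ classA ∧ ∀ g ∈ 𝓕, ∀ z : ℂ, 0 < ‖z‖ → ‖z‖ < 1 → hadamard f g z ≠ 0}

theorem one_sub_mul_ne {x z : ℂ} (hx : ‖x‖ ≤ 1) (hz : z ∈ ball (0 : ℂ) 1) : 1 - x * z ≠ 0 := by
  intro h
  have h1 : x * z = 1 := by linear_combination -h
  have h2 : ‖x‖ * ‖z‖ = 1 := by rw [← norm_mul, h1, norm_one]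
  have h3 : ‖z‖ < 1 := by simpa using hz
  nlinarith [norm_nonneg x, norm_nonneg z]

theorem ff_deriv {x z : ℂ} (hx : ‖x‖ ≤ 1) (hz : z ∈ ball (0 : ℂ) 1) :
    HasDerivAt (fun z : ℂ => z / (1 - x * z)) (1 / (1 - x * z) ^ 2) z := by
  have h1 := one_sub_mul_ne hx hz
  have e1 := (hasDerivAt_id z).fun_div (((hasDerivAt_id z).const_mul x).const_sub 1) h1
  refine e1.congr_deriv ?_
  congr 1
  simp only [id]
  ring

theorem ps_ff {x : ℂ} (hx : ‖x‖ ≤ 1) :
    PS (fun z : ℂ => z / (1 - x * z)) (shiftSeq (fun n => x ^ n)) := by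
  have h1 : PS (fun z : ℂ => 1 / (1 - x * z)) (fun n => x ^ n) := by
    intro z hz
    have h2 : ‖x * z‖ < 1 := by
      rw [norm_mul]
      nlinarith [norm_nonneg x, norm_nonneg z]
    have h3 := hasSum_geometric_of_norm_lt_one h2
    simpa [mul_pow] using h3
  exact h1.shift.congr (fun z _ => by ring)

theorem ps_rot {f : ℂ → ℂ} {a : ℕ → ℂ} (hf : PS f a) {v : ℂ} (hv : ‖v‖ = 1) :
    PS (fun z => f (v * z)) (fun n => a n * v ^ n) := by
  intro z hz
  have h := hf (v * z) (by rw [norm_mul, hv, one_mul]; exact hz)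
  simpa [mul_pow, mul_assoc] using h

theorem ps_DD (τ : ℝ) : PS (DD τ) (shiftSeq (fun n => pc (bb τ) n - if n = 0 then 1 else 0)) :=
  ((ps_P (bb τ)).sub (PS.const 1)).shift

theorem tcoef_eq {f : ℂ → ℂ} {a : ℕ → ℂ} (hd : DifferentiableOn ℂ f (ball 0 1)) (hf : PS f a)
    (n : ℕ) : tcoef n f = a n := congrFun ((PS.of_diff hd).unique hf) n

/-- the neighbourhood function -/
noncomputable def gg (x c v : ℂ) (τ : ℝ) (z : ℂ) : ℂ :=
  z / (1 - x * z) + c * (starRingEnd ℂ) v * DD τ (v * z)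

section Main

variable {x c v : ℂ} {τ : ℝ}

theorem rot_mem (hv : ‖v‖ = 1) {z : ℂ} (hz : z ∈ ball (0 : ℂ) 1) : v * z ∈ ball (0 : ℂ) 1 := by
  rw [mem_ball_zero_iff] at *
  rw [norm_mul, hv, one_mul]
  exact hz

theorem conj_mul_self (hv : ‖v‖ = 1) : (starRingEnd ℂ) v * v = 1 := by
  rw [mul_comm, Complex.mul_conj, normSq_eq_norm_sq, hv]
  simp

theorem gg_deriv (hx : ‖x‖ ≤ 1) (hv : ‖v‖ = 1) {z : ℂ} (hz : z ∈ ball (0 : ℂ) 1) :
    HasDerivAt (gg x c v τ) (1 / (1 - x * z) ^ 2 +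
      c * ((P (bb τ) (v * z) - 1) + v * z * (bb τ * P (bb τ + 1) (v * z)))) z := by
  have e0 : HasDerivAt (fun z : ℂ => v * z) v z := by
    simpa using (hasDerivAt_id z).const_mul v
  have e1 := (HasDerivAt.comp z (DD_deriv τ (rot_mem hv hz)) e0).const_mul
    (c * (starRingEnd ℂ) v)
  have e2 := (ff_deriv hx hz).fun_add e1
  refine e2.congr_deriv ?_
  have := conj_mul_self hv
  linear_combination (c * ((P (bb τ) (v * z) - 1) +
    v * z * (bb τ * P (bb τ + 1) (v * z)))) * this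

theorem gg_sub (hv : ‖v‖ = 1) (z : ℂ) :
    (gg x c v τ z - z / (1 - x * z)) / z = c * (P (bb τ) (v * z) - 1) := by
  by_cases hz : z = 0
  · simp [hz, P_zero]
  · rw [gg, DD]
    have := conj_mul_self hv
    generalize P (bb τ) (v * z) = Y
    field_simp
    linear_combination (c * (Y - 1)) * this

theorem gg_mem (h1 : τ ≤ 1 / 10) (h0 : 0 < τ) (hx : ‖x‖ ≤ 1) (hv : ‖v‖ = 1) {δ : ℝ}
    (hc : ‖c‖ < δ / 5) : gg x c v τ ∈ sigmaNhd δ (fun z => z / (1 - x * z)) := by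
  have hb0 : (0 : ℂ) ∈ ball (0 : ℂ) 1 := mem_ball_self one_pos
  refine ⟨⟨fun z hz => (gg_deriv hx hv hz).differentiableAt.differentiableWithinAt, ?_, ?_⟩, ?_⟩
  · simp [gg, DD]
  · rw [(gg_deriv hx hv hb0).deriv]
    simp [P_zero]
  · intro z hz
    rw [(gg_deriv hx hv hz).deriv, (ff_deriv hx hz).deriv, gg_sub hv z, add_sub_cancel_left,
      ← mul_sub, ← mul_add, norm_mul, norm_mul, ← mul_add]
    have h2 := DD_bound h1 h0 (rot_mem hv hz)
    have h3 := mul_le_mul_of_nonneg_left h2 (norm_nonneg c)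
    linarith

theorem hadamard_val (h1 : τ ≤ 1 / 10) (h0 : 0 < τ) (hx : ‖x‖ ≤ 1) (hv : ‖v‖ = 1) {r : ℝ}
    (hr0 : 0 < r) (hr1 : r < 1) {w : ℂ} (hw : w = x * ((starRingEnd ℂ) v * r)) :
    hadamard (gg x c v τ) (Q (1 + gam τ)) ((starRingEnd ℂ) v * r) =
      (starRingEnd ℂ) v * r * (P (1 + gam τ) w + c * ((∑' n : ℕ, t τ n * (r : ℂ) ^ n) - 1)) := by
  set z₀ : ℂ := (starRingEnd ℂ) v * r with hz₀
  have hvc := conj_mul_self hv
  have hrn : ‖(r : ℂ)‖ = r := by rw [norm_real, Real.norm_eq_abs, abs_of_pos hr0]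
  have hzn : ‖z₀‖ = r := by rw [hz₀, norm_mul, RCLike.norm_conj, hv, one_mul, hrn]
  have hwn : ‖w‖ < 1 := by
    rw [hw, norm_mul, hzn]
    nlinarith [norm_nonneg x]
  have hgd : DifferentiableOn ℂ (gg x c v τ) (ball 0 1) := fun z hz =>
    (gg_deriv hx hv hz).differentiableAt.differentiableWithinAt
  have hhd : DifferentiableOn ℂ (Q (1 + gam τ)) (ball 0 1) := fun z hz =>
    (Q_deriv _ hz).differentiableAt.differentiableWithinAt
  have hpg : PS (gg x c v τ) (fun n => shiftSeq (fun n => x ^ n) n +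
      c * (starRingEnd ℂ) v * (shiftSeq (fun n => pc (bb τ) n - if n = 0 then 1 else 0) n *
        v ^ n)) := (ps_ff hx).add ((ps_rot (ps_DD τ) hv).const_mul _)
  obtain ⟨C, hC⟩ := t_bound h1 h0
  have hsum : Summable (fun n : ℕ => t τ n * (r : ℂ) ^ n) := by
    apply Summable.of_norm_bounded (g := fun n : ℕ => C * r ^ n)
    · exact (summable_geometric_of_lt_one hr0.le hr1).mul_left C
    · intro n
      rw [norm_mul, norm_pow, hrn]
      exact mul_le_mul_of_nonneg_right (hC n) (by positivity)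
  have a1 := ps_P (1 + gam τ) w hwn
  have a2 := (hsum.hasSum.sub (hasSum_ite_eq (0 : ℕ) (1 : ℂ))).mul_left c
  have a3 := (a1.add a2).mul_left z₀
  set T : ℕ → ℂ := fun n => tcoef n (gg x c v τ) * tcoef n (Q (1 + gam τ)) * z₀ ^ n with hT
  have hT0 : T 0 = 0 := by
    simp only [hT]
    rw [tcoef_eq hhd (ps_Q _) 0]
    simp [shiftSeq]
  have hTs : ∀ m : ℕ, T (m + 1) = z₀ * (pc (1 + gam τ) m * w ^ m +
      c * (t τ m * (r : ℂ) ^ m - if m = 0 then 1 else 0)) := by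
    intro m
    simp only [hT]
    rw [tcoef_eq hgd hpg (m + 1), tcoef_eq hhd (ps_Q _) (m + 1)]
    simp only [shiftSeq]
    have e1 : w ^ m = x ^ m * z₀ ^ m := by rw [hw, mul_pow]
    have e2 : (r : ℂ) ^ m = v ^ m * z₀ ^ m := by
      rw [← mul_pow, hz₀]
      congr 1
      linear_combination (-(r : ℂ)) * hvc
    have e3 : (starRingEnd ℂ) v * v ^ (m + 1) = v ^ m := by
      rw [pow_succ]
      linear_combination (v ^ m) * hvc
    have e4 : c * (starRingEnd ℂ) v * ((pc (bb τ) m - if m = 0 then 1 else 0) * v ^ (m + 1)) =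
        c * (pc (bb τ) m - if m = 0 then 1 else 0) * v ^ m := by
      linear_combination (c * (pc (bb τ) m - if m = 0 then 1 else 0)) * e3
    rw [e4, e1, e2]
    unfold t
    by_cases hm : m = 0
    · subst hm
      simp [pc_zero]
    · simp only [if_neg hm]
      ring
  have h2 : HasSum T (z₀ * (P (1 + gam τ) w + c * ((∑' n : ℕ, t τ n * (r : ℂ) ^ n) - 1))) := by
    rw [← hasSum_nat_add_iff' 1]
    simp only [Finset.sum_range_one, hT0, sub_zero]
    refine a3.congr_fun ?_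
    intro m
    exact hTs m
  exact h2.tsum_eq

end Main

/-- **The neighbourhoods `Σ_δ(z/(1-xz))` are never contained in the dual of `S`.** For every `x`
in the closed unit disc and every `δ > 0` (in particular for `δ = γ = 1/(1+ρ)²` with
`|x| ≤ ρ ≤ 1`) there are `g ∈ Σ_δ(z/(1-xz))`, `h ∈ S` and `0 < |z₀| < 1` with
`(g * h)(z₀) = 0`; so `Σ_δ(z/(1-xz))` is not contained in `S^*`. -/
theorem result (x : ℂ) (hx : ‖x‖ ≤ 1) (δ : ℝ) (hδ : 0 < δ) :
    (∃ g ∈ sigmaNhd δ (fun z => z / (1 - x * z)), ∃ h ∈ classS, ∃ z : ℂ, 0 < ‖z‖ ∧ ‖z‖ < 1 ∧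
      hadamard g h z = 0) ∧
    ¬ sigmaNhd δ (fun z => z / (1 - x * z)) ⊆ dualFam classS := by
  have main : ∃ g ∈ sigmaNhd δ (fun z => z / (1 - x * z)), ∃ h ∈ classS, ∃ z : ℂ,
      0 < ‖z‖ ∧ ‖z‖ < 1 ∧ hadamard g h z = 0 := by
    obtain ⟨τ, h0, h1, r, hr0, hr1, hr⟩ := exists_r (5 / δ)
    obtain ⟨Ψ, hΨ⟩ : ∃ Ψ, Ψ = (∑' n : ℕ, t τ n * (r : ℂ) ^ n) - 1 := ⟨_, rfl⟩
    rw [← hΨ] at hr
    have hΨn : 0 < ‖Ψ‖ := lt_trans (by positivity) hr
    have hΨ0 : Ψ ≠ 0 := norm_pos_iff.1 hΨn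
    obtain ⟨v, hv, hvx⟩ : ∃ v : ℂ, ‖v‖ = 1 ∧ x * (starRingEnd ℂ) v = -(‖x‖ : ℂ) := by
      by_cases h : x = 0
      · exact ⟨1, by simp [h]⟩
      · have hxn : ‖x‖ ≠ 0 := norm_ne_zero_iff.2 h
        refine ⟨-(x / ‖x‖), by rw [norm_neg, norm_div, norm_real, norm_norm, div_self hxn], ?_⟩
        have hxc : (‖x‖ : ℂ) ≠ 0 := by exact_mod_cast hxn
        have e1 : x * (starRingEnd ℂ) x = (‖x‖ : ℂ) ^ 2 := by
          rw [Complex.mul_conj, normSq_eq_norm_sq]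
          push_cast
          rfl
        rw [map_neg, map_div₀, conj_ofReal]
        field_simp
        linear_combination -e1
    set w : ℂ := x * ((starRingEnd ℂ) v * r) with hw
    have hw' : w = -((‖x‖ * r : ℝ) : ℂ) := by
      rw [hw, ← mul_assoc, hvx]
      push_cast
      ring
    have hP : ‖P (1 + gam τ) w‖ ≤ 1 := by
      rw [hw']
      exact norm_P_neg h1 h0 (by positivity)
    set c : ℂ := -(P (1 + gam τ) w / Ψ) with hc
    have hcn : ‖c‖ < δ / 5 := by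
      rw [hc, norm_neg, norm_div, div_lt_iff₀ hΨn]
      have h5 : 1 < δ / 5 * ‖Ψ‖ := by
        have := mul_lt_mul_of_pos_left hr (by positivity : 0 < δ / 5)
        have e : δ / 5 * (5 / δ) = 1 := by field_simp
        linarith
      linarith
    have hrn : ‖(r : ℂ)‖ = r := by rw [norm_real, Real.norm_eq_abs, abs_of_pos hr0]
    have hzn : ‖(starRingEnd ℂ) v * r‖ = r := by rw [norm_mul, RCLike.norm_conj, hv, one_mul, hrn]
    have hb0 : (0 : ℂ) ∈ ball (0 : ℂ) 1 := mem_ball_self one_pos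
    refine ⟨gg x c v τ, gg_mem h1 h0 hx hv hcn, Q (1 + gam τ), ⟨⟨fun z hz =>
      (Q_deriv _ hz).differentiableAt.differentiableWithinAt, by simp [Q], ?_⟩,
      Q_inj (norm_gam h1 h0) (one_add_gam h1 h0)⟩, (starRingEnd ℂ) v * r, ?_, ?_, ?_⟩
    · rw [(Q_deriv _ hb0).deriv, P_zero]
      ring
    · rw [hzn]; exact hr0
    · rw [hzn]; exact hr1
    · rw [hadamard_val h1 h0 hx hv hr0 hr1 hw, ← hΨ, hc]
      field_simp
      ring
  refine ⟨main, fun hsub => ?_⟩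
  obtain ⟨g, hg, h, hh, z, hz0, hz1, hz⟩ := main
  exact (hsub hg).2 h hh z hz0 hz1 hz

end Pool.Agent.Results.MP_061dbe_an.NeverInDual
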